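import Pool.Agent.R71.GM.Cons

set_option autoImplicit false

/-!
# MP_f94239_co: the minimum number of monochromatic triangles in Gallai colourings

For all positive `k` and all `n`, the minimum number of monochromatic triangles in a
Gallai-`k`-colouring of `K_n` equals `F_k(n)`.
-/

namespace Pool.Agent.Results.MP_f94239_co.ExactMinimum

open Finset Pool.Agent.R71.GM

/-- `c` is a colouring of the edges of `K_n` (vertex set `Fin n`) with colours in `Fin k`, given by
a symmetric function; values on the diagonal play no role. -/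
def IsColouring {n k : ℕ} (c : Fin n → Fin n → Fin k) : Prop := ∀ x y, c x y = c y x

/-- no triangle is rainbow -/
def NoRainbow {n k : ℕ} (c : Fin n → Fin n → Fin k) : Prop :=
  ∀ x y z, x ≠ y → y ≠ z → x ≠ z → (c x y = c y z ∨ c y z = c x z ∨ c x y = c x z)

/-- the number of monochromatic triangles -/
noncomputable def monoTriangles {n k : ℕ} (c : Fin n → Fin n → Fin k) : ℕ :=
  Set.ncard {S : Finset (Fin n) | S.card = 3 ∧ ∃ i, ∀ x ∈ S, ∀ y ∈ S, x ≠ y → c x y = i}

/-- `M_2(K_3, m)`: the minimum number of monochromatic triangles over all 2-colourings of `K_m` -/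
noncomputable def M2 (m : ℕ) : ℕ :=
  sInf {t | ∃ c : Fin m → Fin m → Fin 2, IsColouring c ∧ monoTriangles c = t}

/-- `F_k(n)`, where `N_k = 5 ^ ⌊(k-1)/2⌋`, `n = N_k m + r`, `0 ≤ r < N_k` -/
noncomputable def F (k n : ℕ) : ℕ :=
  let N := 5 ^ ((k - 1) / 2)
  let m := n / N
  let r := n % N
  if Odd k then r * (m + 1).choose 3 + (N - r) * m.choose 3
  else r * M2 (m + 1) + (N - r) * M2 m

theorem perm_cases {α : Type*} [DecidableEq α] {u v w x y z : α}
    (h1 : x ≠ y) (h2 : y ≠ z) (h3 : x ≠ z) (hS : ({x, y, z} : Finset α) = {u, v, w}) :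
    (x = u ∧ y = v ∧ z = w) ∨ (x = u ∧ y = w ∧ z = v) ∨ (x = v ∧ y = u ∧ z = w) ∨
    (x = v ∧ y = w ∧ z = u) ∨ (x = w ∧ y = u ∧ z = v) ∨ (x = w ∧ y = v ∧ z = u) := by
  have hx : x ∈ ({u, v, w} : Finset α) := by rw [← hS]; simp
  have hy : y ∈ ({u, v, w} : Finset α) := by rw [← hS]; simp
  have hz : z ∈ ({u, v, w} : Finset α) := by rw [← hS]; simp
  simp only [mem_insert, mem_singleton] at hx hy hz
  clear hS
  rcases hx with hx | hx | hx <;> rcases hy with hy | hy | hy <;>
    rcases hz with hz | hz | hz <;>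
    first
    | exact absurd (hx.trans hy.symm) h1
    | exact absurd (hy.trans hz.symm) h2
    | exact absurd (hx.trans hz.symm) h3
    | exact Or.inl ⟨hx, hy, hz⟩
    | exact Or.inr (Or.inl ⟨hx, hy, hz⟩)
    | exact Or.inr (Or.inr (Or.inl ⟨hx, hy, hz⟩))
    | exact Or.inr (Or.inr (Or.inr (Or.inl ⟨hx, hy, hz⟩)))
    | exact Or.inr (Or.inr (Or.inr (Or.inr (Or.inl ⟨hx, hy, hz⟩))))
    | exact Or.inr (Or.inr (Or.inr (Or.inr (Or.inr ⟨hx, hy, hz⟩))))

theorem card_six {α : Type*} [DecidableEq α] {u v w : α} (huv : u ≠ v) (huw : u ≠ w)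
    (hvw : v ≠ w) :
    ({(u, v, w), (u, w, v), (v, u, w), (v, w, u), (w, u, v), (w, v, u)} :
      Finset (α × α × α)).card = 6 := by
  rw [card_insert_of_notMem, card_insert_of_notMem, card_insert_of_notMem,
    card_insert_of_notMem, card_insert_of_notMem, card_singleton]
  all_goals simp [huv, huw, hvw, huv.symm, huw.symm, hvw.symm]

theorem T_card {n k : ℕ} (c : Fin n → Fin n → Fin k) (hc : ∀ x y, c x y = c y x) :
    T c univ = (monoTriangles c : ℝ) := by
  classical
  set Mo : Finset (Finset (Fin n)) := univ.filter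
    (fun S => S.card = 3 ∧ ∃ i, ∀ x ∈ S, ∀ y ∈ S, x ≠ y → c x y = i) with hMo
  have hmono : monoTriangles c = Mo.card := by
    unfold monoTriangles
    rw [← Set.ncard_coe_finset]
    congr 1
    ext S
    simp [hMo]
  rw [hmono]
  set D : Finset (Fin n × Fin n × Fin n) := univ.filter
    (fun p => p.1 ≠ p.2.1 ∧ p.2.1 ≠ p.2.2 ∧ p.1 ≠ p.2.2 ∧ c p.1 p.2.1 = c p.2.1 p.2.2 ∧
      c p.1 p.2.1 = c p.1 p.2.2) with hD
  have h1 : T3 c univ univ univ = (D.card : ℝ) := by
    unfold T3 M
    rw [hD, card_filter]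
    push_cast
    rw [Fintype.sum_prod_type]
    refine sum_congr rfl fun x _ => ?_
    rw [Fintype.sum_prod_type]
  have hmaps : ∀ p ∈ D, ({p.1, p.2.1, p.2.2} : Finset (Fin n)) ∈ Mo := by
    rintro ⟨x, y, z⟩ hp
    rw [hD, mem_filter] at hp
    obtain ⟨_, h1, h2, h3, h4, h5⟩ := hp
    simp only at h1 h2 h3 h4 h5
    rw [hMo, mem_filter]
    refine ⟨mem_univ _, card_eq_three.2 ⟨x, y, z, h1, h3, h2, rfl⟩, c x y, ?_⟩
    intro u hu v hv huv
    simp only [mem_insert, mem_singleton] at hu hv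
    rcases hu with rfl | rfl | rfl <;> rcases hv with rfl | rfl | rfl
    · exact absurd rfl huv
    · rfl
    · exact h5.symm
    · exact hc _ _
    · exact absurd rfl huv
    · exact h4.symm
    · rw [hc]; exact h5.symm
    · rw [hc]; exact h4.symm
    · exact absurd rfl huv
  have hfib : ∀ S ∈ Mo, (D.filter (fun p => ({p.1, p.2.1, p.2.2} : Finset (Fin n)) = S)).card
      = 6 := by
    intro S hS
    rw [hMo, mem_filter] at hS
    obtain ⟨_, hS3, i, hi⟩ := hS
    obtain ⟨u, v, w, huv, huw, hvw, rfl⟩ := card_eq_three.1 hS3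
    have e1 : c u v = i := hi u (by simp) v (by simp) huv
    have e2 : c v w = i := hi v (by simp) w (by simp) hvw
    have e3 : c u w = i := hi u (by simp) w (by simp) huw
    have e1' : c v u = i := by rw [hc]; exact e1
    have e2' : c w v = i := by rw [hc]; exact e2
    have e3' : c w u = i := by rw [hc]; exact e3
    have : D.filter (fun p => ({p.1, p.2.1, p.2.2} : Finset (Fin n)) = {u, v, w}) =
        {(u, v, w), (u, w, v), (v, u, w), (v, w, u), (w, u, v), (w, v, u)} := by
      ext ⟨x, y, z⟩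
      simp only [mem_filter, hD, mem_univ, true_and, mem_insert, mem_singleton, Prod.mk.injEq]
      constructor
      · rintro ⟨⟨h1, h2, h3, _, _⟩, hS⟩
        exact perm_cases h1 h2 h3 hS
      · have hset : ∀ a b d : Fin n, ({a, b, d} : Finset (Fin n)) = {b, a, d} := by
          intro a b d; ext t; simp only [mem_insert, mem_singleton]; tauto
        have hset' : ∀ a b d : Fin n, ({a, b, d} : Finset (Fin n)) = {a, d, b} := by
          intro a b d; ext t; simp only [mem_insert, mem_singleton]; tauto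
        rintro (⟨rfl, rfl, rfl⟩ | ⟨rfl, rfl, rfl⟩ | ⟨rfl, rfl, rfl⟩ | ⟨rfl, rfl, rfl⟩ |
          ⟨rfl, rfl, rfl⟩ | ⟨rfl, rfl, rfl⟩)
        · exact ⟨⟨huv, hvw, huw, by rw [e1, e2], by rw [e1, e3]⟩, rfl⟩
        · exact ⟨⟨huw, hvw.symm, huv, by rw [e3, e2'], by rw [e3, e1]⟩, hset' _ _ _⟩
        · exact ⟨⟨huv.symm, huw, hvw, by rw [e1', e3], by rw [e1', e2]⟩, hset _ _ _⟩
        · exact ⟨⟨hvw, huw.symm, huv.symm, by rw [e2, e3'], by rw [e2, e1']⟩, by
            rw [hset' x y z, hset x z y]⟩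
        · exact ⟨⟨huw.symm, huv, hvw.symm, by rw [e3', e1], by rw [e3', e2']⟩, by
            rw [hset x y z, hset' y x z]⟩
        · exact ⟨⟨hvw.symm, huv.symm, huw.symm, by rw [e2', e1'], by rw [e2', e3']⟩, by
            rw [hset x y z, hset' y x z, hset y z x]⟩
    rw [this]
    exact card_six huv huw hvw
  have h2 : D.card = 6 * Mo.card := by
    rw [card_eq_sum_card_fiberwise (f := fun p : Fin n × Fin n × Fin n =>
      ({p.1, p.2.1, p.2.2} : Finset (Fin n))) (t := Mo) (fun p hp => hmaps p hp),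
      sum_congr rfl hfib, sum_const, smul_eq_mul]
    ring
  unfold T
  rw [h1, h2]
  push_cast
  ring

/-- existence with colours in `Fin k` -/
theorem exists_col (k n : ℕ) (hk : 1 ≤ k) :
    ∃ c : Fin n → Fin n → Fin k, IsColouring c ∧ NoRainbow c ∧
      (monoTriangles c : ℝ) = Fk k n := by
  obtain ⟨c', hsym, hgal, hlt, hT⟩ := UB_all k hk n
  let c : Fin n → Fin n → Fin k := fun x y =>
    if h : x ≠ y then ⟨c' x y, hlt x x.2 y y.2 (fun e => h (Fin.ext e))⟩ else ⟨0, hk⟩
  have hval : ∀ x y : Fin n, x ≠ y → ((c x y : Fin k) : ℕ) = c' x y := by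
    intro x y h
    show ((if h : _ then _ else _ : Fin k) : ℕ) = _
    rw [dif_pos h]
  have hsymc : IsColouring c := by
    intro x y
    by_cases h : x = y
    · rw [h]
    · apply Fin.ext
      rw [hval x y h, hval y x (Ne.symm h), hsym]
  refine ⟨c, hsymc, ?_, ?_⟩
  · intro x y z h1 h2 h3
    have := hgal x x.2 y y.2 z z.2 (fun e => h1 (Fin.ext e)) (fun e => h2 (Fin.ext e))
      (fun e => h3 (Fin.ext e))
    rw [← hval x y h1, ← hval y z h2, ← hval x z h3] at this
    rcases this with h | h | h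
    · exact Or.inl (Fin.ext h)
    · exact Or.inr (Or.inl (Fin.ext h))
    · exact Or.inr (Or.inr (Fin.ext h))
  · rw [← T_card c hsymc, ← hT]
    have himg : range n = (univ : Finset (Fin n)).image (fun v : Fin n => (v : ℕ)) := by
      ext m
      simp only [mem_range, mem_image, mem_univ, true_and]
      constructor
      · intro hm; exact ⟨⟨m, hm⟩, rfl⟩
      · rintro ⟨v, rfl⟩; exact v.2
    rw [himg, T_image (c := c) Fin.val_injective]
    intro x _ y _ z _ h1 h2 h3
    rw [← hval x y h1, ← hval y z h2, ← hval x z h3]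
    exact ⟨⟨fun h => congrArg _ h, fun h => Fin.ext h⟩, ⟨fun h => congrArg _ h, fun h => Fin.ext h⟩⟩

theorem lower {k n : ℕ} (hk : 1 ≤ k) (c : Fin n → Fin n → Fin k) (hc : IsColouring c)
    (hr : NoRainbow c) : Fk k n ≤ (monoTriangles c : ℝ) := by
  have h := LB_all (V := Fin n) (C := Fin k) k hk c ⟨hc, hr⟩ univ (by rw [card_univ, Fintype.card_fin])
    univ (fun _ _ _ _ _ => mem_univ _)
  rw [card_univ, Fintype.card_fin, T_card c hc] at h
  exact h

theorem noRainbow_two {n : ℕ} (c : Fin n → Fin n → Fin 2) : NoRainbow c := by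
  intro x y z _ _ _
  generalize c x y = a
  generalize c y z = b
  generalize c x z = d
  revert a b d
  decide

theorem M2_eq (m : ℕ) : (M2 m : ℝ) = E2v m := by
  have hF2 : ∀ m, Fk 2 m = E2v m := by
    intro m
    unfold Fk
    rw [if_neg (by decide), show (2 - 1) / 2 = 0 by norm_num, pow_zero, Fi_one]
  have hleast : IsLeast {t | ∃ c : Fin m → Fin m → Fin 2, IsColouring c ∧ monoTriangles c = t}
      (G2 m) := by
    constructor
    · obtain ⟨c, hc, _, hT⟩ := exists_col 2 m (by norm_num)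
      refine ⟨c, hc, ?_⟩
      rw [hF2] at hT
      unfold E2v at hT
      exact_mod_cast hT
    · rintro t ⟨c, hc, rfl⟩
      have := lower (by norm_num) c hc (noRainbow_two c)
      rw [hF2] at this
      unfold E2v at this
      exact_mod_cast this
  unfold M2
  rw [hleast.csInf_eq]
  rfl

theorem F_eq (k n : ℕ) : (F k n : ℝ) = Fk k n := by
  have hN : 0 < 5 ^ ((k - 1) / 2) := by positivity
  have hmod : n % 5 ^ ((k - 1) / 2) ≤ 5 ^ ((k - 1) / 2) := (Nat.mod_lt _ hN).le
  unfold F Fk Fi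
  by_cases h : Odd k
  · simp only [if_pos h]
    push_cast [Nat.cast_sub hmod]
    rfl
  · simp only [if_neg h]
    push_cast [Nat.cast_sub hmod]
    rw [M2_eq, M2_eq]

/-- **Q1, answered in full.**  For every `k ≥ 1` and every `n`, the minimum number of monochromatic
triangles in a Gallai-`k`-colouring of `K_n` is `F_k(n)`. -/
theorem result : ∀ k n : ℕ, 1 ≤ k →
    IsLeast {t | ∃ c : Fin n → Fin n → Fin k, IsColouring c ∧ NoRainbow c ∧ monoTriangles c = t}
      (F k n) := by
  intro k n hk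
  constructor
  · obtain ⟨c, hc, hr, hT⟩ := exists_col k n hk
    refine ⟨c, hc, hr, ?_⟩
    rw [← F_eq] at hT
    exact_mod_cast hT
  · rintro t ⟨c, hc, hr, rfl⟩
    have := lower hk c hc hr
    rw [← F_eq] at this
    exact_mod_cast this

end Pool.Agent.Results.MP_f94239_co.ExactMinimum
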